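import Pool.Agent.Helper14.TR.Defs
import Pool.Agent.Helper53.EL.Cliff
import Pool.Agent.Helper56.EL.Lie
import Pool.Agent.Helper21.MH.Full4
import Pool.Agent.Helper34.TR.Asm
import Pool.Agent.Helper54.TR.EC
import Pool.Agent.Helper57.CF.Mat
import Pool.Agent.Helper24.TR.Gal

/-!
Project TR (MP_b8862a_ag), block TR-9b: the brackets of `LG` are full on every block.
-/

set_option linter.unusedSectionVars false

open Matrix

namespace MH

section brackets

variable {k : Type*} [Fintype k] [DecidableEq k]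

/-- `E_ab - E_ba` -/
private def s57 (a b : k) : Matrix k k ℂ := Matrix.single a b 1 - Matrix.single b a 1

private lemma s57_skew (a b : k) : (s57 a b)ᵀ = -s57 a b := by
  rw [s57, transpose_sub, transpose_single, transpose_single, neg_sub]

private lemma s57_br {a b c : k} (hab : a ≠ b) (hac : a ≠ c) (hbc : b ≠ c) :
    s57 a c * s57 c b - s57 c b * s57 a c = s57 a b := by
  unfold s57
  simp only [sub_mul, mul_sub]
  rw [single_mul_single_same, single_mul_single_of_ne (h := hbc.symm), single_mul_single_of_ne (h := hac),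
    single_mul_single_of_ne (h := hab), single_mul_single_of_ne (h := hab.symm),
    single_mul_single_of_ne (h := hbc), single_mul_single_of_ne (h := hac.symm), single_mul_single_same]
  simp

/-- skew matrices are sums of brackets of skew matrices -/
private lemma brk57 (h3 : 3 ≤ Fintype.card k) (T : Submodule ℂ (Matrix k k ℂ))
    (hT : ∀ y z : Matrix k k ℂ, yᵀ = -y → zᵀ = -z → y * z - z * y ∈ T) {x : Matrix k k ℂ} (hx : xᵀ = -x) :
    x ∈ T := by
  have h1 : ∀ a b : k, s57 a b ∈ T := by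
    intro a b
    by_cases hab : a = b
    · rw [hab, s57, sub_self]
      exact T.zero_mem
    · obtain ⟨c, hc⟩ : ∃ c, c ∉ ({a, b} : Finset k) := by
        by_contra hcon
        push Not at hcon
        have h2 : (Finset.univ : Finset k) ⊆ {a, b} := fun c _ => hcon c
        have h4 := Finset.card_le_card h2
        rw [Finset.card_univ] at h4
        have h5 : ({a, b} : Finset k).card ≤ 2 := Finset.card_le_two
        omega
      rw [Finset.mem_insert, Finset.mem_singleton, not_or] at hc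
      rw [← s57_br hab (Ne.symm hc.1) (Ne.symm hc.2)]
      exact hT _ _ (s57_skew _ _) (s57_skew _ _)
  have h2 : x = (2⁻¹ : ℂ) • ∑ a, ∑ b, x a b • s57 a b := by
    have h4 : ∑ a, ∑ b, x a b • s57 a b = x - xᵀ := by
      have h5 : x = ∑ a, ∑ b, x a b • Matrix.single a b (1 : ℂ) := by
        conv_lhs => rw [matrix_eq_sum_single x]
        refine Finset.sum_congr rfl fun a _ => Finset.sum_congr rfl fun b _ => ?_
        rw [smul_single, smul_eq_mul, mul_one]
      have h6 : xᵀ = ∑ a, ∑ b, x a b • Matrix.single b a (1 : ℂ) := by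
        conv_lhs => rw [h5]
        rw [transpose_sum]
        refine Finset.sum_congr rfl fun a _ => ?_
        rw [transpose_sum]
        refine Finset.sum_congr rfl fun b _ => ?_
        rw [transpose_smul, transpose_single]
      rw [h6]
      conv_rhs => rw [h5]
      rw [← Finset.sum_sub_distrib]
      refine Finset.sum_congr rfl fun a _ => ?_
      rw [← Finset.sum_sub_distrib]
      refine Finset.sum_congr rfl fun b _ => ?_
      rw [s57, smul_sub]
      conv_rhs => rw [← h5]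
    rw [h4, hx, sub_neg_eq_add, ← two_smul ℂ x, smul_smul, inv_mul_cancel₀ two_ne_zero, one_smul]
  rw [h2]
  exact T.smul_mem _ (T.sum_mem fun a _ => T.sum_mem fun b _ => T.smul_mem _ (h1 a b))

end brackets

section spectral

variable {k : Type*} [Fintype k] [DecidableEq k] {A : ℤ → Matrix k k ℂ} {S' : Finset ℤ}

private noncomputable def sp57 (A : ℤ → Matrix k k ℂ) (S' : Finset ℤ) (c : ℤ) (μ : ℝ) : Matrix k k ℂ :=
  ∑ p ∈ S'.filter (fun p => ((p - c : ℤ) : ℝ) = μ), A p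

private lemma sp57_eq (hs : ∀ p, p ∉ S' → A p = 0) (c p : ℤ) : sp57 A S' c ((p - c : ℤ) : ℝ) = A p := by
  unfold sp57
  by_cases hp : p ∈ S'
  · rw [Finset.sum_eq_single_of_mem p (by rw [Finset.mem_filter]; exact ⟨hp, rfl⟩)]
    intro q hq hqp
    rw [Finset.mem_filter] at hq
    have h1 : q - c = p - c := by exact_mod_cast hq.2
    exact absurd (by omega) hqp
  · rw [hs p hp]
    refine Finset.sum_eq_zero fun q hq => ?_
    rw [Finset.mem_filter] at hq
    have h1 : q - c = p - c := by exact_mod_cast hq.2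
    have h2 : q = p := by omega
    exact absurd (h2 ▸ hq.1) hp

private lemma sp57_zero {c : ℤ} {μ : ℝ} (hμ : ∀ p ∈ S', ((p - c : ℤ) : ℝ) ≠ μ) : sp57 A S' c μ = 0 := by
  unfold sp57
  refine Finset.sum_eq_zero fun q hq => ?_
  rw [Finset.mem_filter] at hq
  exact absurd hq.2 (hμ q hq.1)

private lemma sp57_sd (hmul : ∀ p q, A p * A q = if p = q then A p else 0) (hsum : ∑ p ∈ S', A p = 1)
    (hs : ∀ p, p ∉ S' → A p = 0) (c : ℤ) :
    SD (∑ p ∈ S', ((p - c : ℤ) : ℂ) • A p) (sp57 A S' c) (S'.image fun p : ℤ => ((p - c : ℤ) : ℝ)) := by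
  have hinj : ∀ p ∈ S', ∀ q ∈ S', ((p - c : ℤ) : ℝ) = ((q - c : ℤ) : ℝ) → p = q := by
    intro p _ q _ h
    have : p - c = q - c := by exact_mod_cast h
    omega
  refine ⟨?_, ?_, ?_⟩
  · intro μ ν
    by_cases hμ : ∃ p ∈ S', ((p - c : ℤ) : ℝ) = μ
    · obtain ⟨p, hp, rfl⟩ := hμ
      by_cases hν : ∃ q ∈ S', ((q - c : ℤ) : ℝ) = ν
      · obtain ⟨q, hq, rfl⟩ := hν
        rw [sp57_eq hs, sp57_eq hs, hmul]
        by_cases hpq : p = q
        · rw [if_pos hpq, if_pos (by rw [hpq])]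
        · rw [if_neg hpq, if_neg (fun h => hpq (hinj p hp q hq h))]
      · push Not at hν
        rw [sp57_zero hν, mul_zero, if_neg]
        exact hν p hp
    · push Not at hμ
      rw [sp57_zero hμ, zero_mul]
      split_ifs <;> rfl
  · rw [Finset.sum_image hinj, ← hsum]
    exact Finset.sum_congr rfl fun p _ => sp57_eq hs c p
  · rw [Finset.sum_image hinj]
    refine Finset.sum_congr rfl fun p _ => ?_
    rw [sp57_eq hs]
    push_cast
    rfl

end spectral

variable {n : Type*} [Fintype n] [DecidableEq n]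
variable {m : ℤ} {Q : Matrix n n ℚ} {S : Finset ℤ} {P : ℤ → Matrix n n ℂ} {Γ : Subgroup (GL n ℂ)}

section cmp

variable {r : ℕ} {W : Matrix n (Fin r) ℂ} {V : Matrix (Fin r) n ℂ} {e : Matrix n n ℂ}

/-- compression of a group to a block -/
private noncomputable def hom57 (hVW : V * W = 1) (hWV : W * V = e) (Γ' : Subgroup (GL n ℂ))
    (hc : ∀ g ∈ Γ', (g : Matrix n n ℂ) * e = e * (g : Matrix n n ℂ)) : Γ' →* GL (Fin r) ℂ where
  toFun g := ⟨V * (g.1 : Matrix n n ℂ) * W, V * ((g.1⁻¹ : GL n ℂ) : Matrix n n ℂ) * W, by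
      have h1 : (g.1 : Matrix n n ℂ) * ((g.1⁻¹ : GL n ℂ) : Matrix n n ℂ) = 1 := Units.mul_inv g.1
      calc V * (g.1 : Matrix n n ℂ) * W * (V * ((g.1⁻¹ : GL n ℂ) : Matrix n n ℂ) * W)
          = V * ((g.1 : Matrix n n ℂ) * (W * V)) * ((g.1⁻¹ : GL n ℂ) : Matrix n n ℂ) * W := by
            simp only [Matrix.mul_assoc]
        _ = V * W * V * ((g.1 : Matrix n n ℂ) * ((g.1⁻¹ : GL n ℂ) : Matrix n n ℂ)) * W := by
            rw [hWV, hc g.1 g.2, ← hWV]; simp only [Matrix.mul_assoc]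
        _ = 1 := by rw [h1, Matrix.mul_one, Matrix.mul_assoc, hVW, Matrix.mul_one], by
      have h1 : ((g.1⁻¹ : GL n ℂ) : Matrix n n ℂ) * (g.1 : Matrix n n ℂ) = 1 := Units.inv_mul g.1
      calc V * ((g.1⁻¹ : GL n ℂ) : Matrix n n ℂ) * W * (V * (g.1 : Matrix n n ℂ) * W)
          = V * ((g.1⁻¹ : GL n ℂ) : Matrix n n ℂ) * ((W * V) * (g.1 : Matrix n n ℂ)) * W := by
            simp only [Matrix.mul_assoc]
        _ = V * (((g.1⁻¹ : GL n ℂ) : Matrix n n ℂ) * (g.1 : Matrix n n ℂ)) * (W * V * W) := by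
            rw [hWV, ← hc g.1 g.2, ← hWV]; simp only [Matrix.mul_assoc]
        _ = 1 := by rw [h1, Matrix.mul_one, Matrix.mul_assoc, hVW, Matrix.mul_one, hVW]⟩
  map_one' := by
    apply Units.ext
    change V * ((1 : GL n ℂ) : Matrix n n ℂ) * W = 1
    rw [Units.val_one, Matrix.mul_one, hVW]
  map_mul' g g' := by
    apply Units.ext
    change V * ((g.1 * g'.1 : GL n ℂ) : Matrix n n ℂ) * W =
      V * (g.1 : Matrix n n ℂ) * W * (V * (g'.1 : Matrix n n ℂ) * W)
    rw [Units.val_mul]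
    calc V * ((g.1 : Matrix n n ℂ) * (g'.1 : Matrix n n ℂ)) * W
        = V * W * V * ((g.1 : Matrix n n ℂ) * (g'.1 : Matrix n n ℂ)) * W := by rw [hVW, Matrix.one_mul]
      _ = V * ((W * V) * (g.1 : Matrix n n ℂ)) * (g'.1 : Matrix n n ℂ) * W := by simp only [Matrix.mul_assoc]
      _ = V * ((g.1 : Matrix n n ℂ) * (W * V)) * (g'.1 : Matrix n n ℂ) * W := by rw [hWV, hc g.1 g.2]
      _ = V * (g.1 : Matrix n n ℂ) * W * (V * (g'.1 : Matrix n n ℂ) * W) := by simp only [Matrix.mul_assoc]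

end cmp

/-- the brackets of `LG` are full on every block -/
theorem IsGalE.block_full (H : IsHS m Q S P) (hSA : SelfAdj Q P) (G : IsGalE m Q P Γ) (C : CentEC P Γ)
    {e : Matrix n n ℂ} (he : IsBlock P e) {X : Matrix n n ℂ} (hX : e * X * e = X)
    (hs : Xᵀ * toC Q + toC Q * X = 0) : ∃ Y ∈ LGb Γ, Y * e = X := by
  classical
  obtain ⟨B, Bi, Qi, -, -, hQ1, hQ2, -⟩ := H.exists_basis
  have hQs : (toC Q)ᵀ = toC Q := H.Q_symm
  have hQd : (toC Q).det ≠ 0 := by
    intro h0
    have h1 := congrArg Matrix.det hQ1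
    rw [det_mul, h0, zero_mul, det_one] at h1
    exact zero_ne_one h1
  obtain ⟨W, hW1, hW2⟩ := exists_orth hQs hQd he.idem (EC_adj hSA he.mem)
  obtain ⟨V, hV⟩ : ∃ V : Matrix (Fin e.rank) n ℂ, V = Wᵀ * toC Q := ⟨_, rfl⟩
  have hVW : V * W = 1 := by rw [hV]; exact hW1
  have hWV : W * V = e := by rw [hV]; exact hW2
  have hVe : V * e = V := by
    calc V * e = V * (W * V) := by rw [hWV]
      _ = V := by rw [← Matrix.mul_assoc, hVW, Matrix.one_mul]
  have heW : e * W = W := by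
    calc e * W = W * V * W := by rw [hWV]
      _ = W := by rw [Matrix.mul_assoc, hVW, Matrix.mul_one]
  have hVt : Vᵀ = toC Q * W := by rw [hV, transpose_mul, transpose_transpose, hQs]
  -- the product of compressions
  have hcomp : ∀ A D : Matrix n n ℂ, A * e = e * A → V * A * W * (V * D * W) = V * (A * D) * W := by
    intro A D hA
    calc V * A * W * (V * D * W) = V * (A * (W * V)) * D * W := by simp only [Matrix.mul_assoc]
      _ = V * e * (A * D) * W := by rw [hWV, hA]; simp only [Matrix.mul_assoc]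
      _ = V * (A * D) * W := by rw [hVe]
  -- similitudes
  have hsim : ∀ (A : Matrix n n ℂ) (c : ℂ), Aᵀ * toC Q + toC Q * A = c • toC Q →
      (V * A * W)ᵀ + V * A * W = c • (1 : Matrix (Fin e.rank) (Fin e.rank) ℂ) := by
    intro A c hA
    calc (V * A * W)ᵀ + V * A * W = Wᵀ * (Aᵀ * toC Q + toC Q * A) * W := by
          rw [transpose_mul, transpose_mul, hVt, hV]
          simp only [Matrix.mul_add, Matrix.add_mul, Matrix.mul_assoc]
      _ = c • (1 : Matrix (Fin e.rank) (Fin e.rank) ℂ) := by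
          rw [hA, Matrix.mul_smul, Matrix.smul_mul, hW1]
  have hx : (V * X * W)ᵀ = -(V * X * W) := by
    have h1 := hsim X 0 (by rw [hs, zero_smul])
    rw [zero_smul] at h1
    exact eq_neg_of_add_eq_zero_left h1
  have hXx : W * (V * X * W) * V = X := by
    calc W * (V * X * W) * V = (W * V) * X * (W * V) := by simp only [Matrix.mul_assoc]
      _ = X := by rw [hWV, hX]
  obtain ⟨S', R, hR, htouch⟩ := G.touch e he
  rcases htouch with hr1 | ⟨hdom, hgcd⟩
  · -- rank one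
    have h0 : V * X * W = 0 := by
      have hsub : Subsingleton (Fin e.rank) := by
        rw [hr1]
        infer_instance
      ext i j
      have h1 := congrFun (congrFun hx j) i
      rw [transpose_apply, Matrix.neg_apply, Subsingleton.elim j i] at h1
      rw [Subsingleton.elim j i, Matrix.zero_apply]
      have h2 : (2 : ℂ) * (V * X * W) i i = 0 := by linear_combination h1
      exact (mul_eq_zero.mp h2).resolve_left two_ne_zero
    refine ⟨0, (LGb Γ).zero_mem, ?_⟩
    rw [Matrix.zero_mul, ← hXx, h0, Matrix.mul_zero, Matrix.zero_mul]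
  -- the rank is large
  have hr5 : 5 ≤ e.rank := by
    have h1 := hdom.two
    have h2 := hdom.sq
    have h3 : (e * R m).rank ≤ e.rank := Matrix.rank_mul_le_left e (R m)
    have h4 : 2 ^ 2 ≤ (∑ p ∈ S'.filter (fun p => m < p), (e * R p).rank) ^ 2 := Nat.pow_le_pow_left h1 2
    omega
  have hRe : ∀ p, R p * e = e * R p := fun p => R_EC C hR he.mem p
  -- the compressed projections
  obtain ⟨A, hA⟩ : ∃ A : ℤ → Matrix (Fin e.rank) (Fin e.rank) ℂ, ∀ p, A p = V * R p * W := ⟨_, fun _ => rfl⟩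
  have hAmul : ∀ p q, A p * A q = if p = q then A p else 0 := by
    intro p q
    rw [hA, hA, hcomp _ _ (hRe p), hR.mul]
    by_cases hpq : p = q
    · rw [if_pos hpq, if_pos hpq]
    · rw [if_neg hpq, if_neg hpq, Matrix.mul_zero, Matrix.zero_mul]
  have hAsupp : ∀ p, p ∉ S' → A p = 0 := by
    intro p hp
    rw [hA, hR.supp p hp, Matrix.mul_zero, Matrix.zero_mul]
  have hAsum : ∑ p ∈ S', A p = 1 := by
    calc ∑ p ∈ S', A p = V * (∑ p ∈ S', R p) * W := by
          rw [Matrix.mul_sum, Matrix.sum_mul]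
          exact Finset.sum_congr rfl fun p _ => hA p
      _ = 1 := by rw [hR.sum, Matrix.mul_one, hVW]
  have hArank : ∀ p, (A p).rank = (e * R p).rank := by
    intro p
    have h1 : (A p).trace = ((A p).rank : ℂ) := trace_eq_rank (by rw [hAmul, if_pos rfl])
    have h2 : (e * R p).trace = ((e * R p).rank : ℂ) := trace_eq_rank (by
      calc e * R p * (e * R p) = e * (R p * e) * R p := by simp only [Matrix.mul_assoc]
        _ = e * e * (R p * R p) := by rw [hRe]; simp only [Matrix.mul_assoc]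
        _ = e * R p := by rw [he.idem, hR.mul, if_pos rfl])
    have h3 : (A p).trace = (e * R p).trace := by
      rw [hA, Matrix.trace_mul_comm, ← Matrix.mul_assoc, hWV]
    rw [h1, h2] at h3
    exact_mod_cast h3
  -- the Lie algebra of the block
  obtain ⟨Le, hLe⟩ : ∃ Le, Le = cpL W V (LG Γ) := ⟨_, rfl⟩
  have memLe : ∀ y, y ∈ Le ↔ ∃ x ∈ LG Γ, y = V * x * W := fun y => by rw [hLe]; exact Iff.rfl
  obtain ⟨Γ', hΓ', hcm⟩ := C.comm
  have hc : ∀ g ∈ Γ', (g : Matrix n n ℂ) * e = e * (g : Matrix n n ℂ) := fun g hg => hcm g hg e he.mem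
  obtain ⟨φ, hφ⟩ : ∃ φ : Γ' →* GL (Fin e.rank) ℂ, φ = hom57 hVW hWV Γ' hc := ⟨_, rfl⟩
  have hφ1 : ∀ g : Γ', (φ g : Matrix (Fin e.rank) (Fin e.rank) ℂ) = V * (g.1 : Matrix n n ℂ) * W := fun g => by
    rw [hφ]
    rfl
  have hφW : ∀ g : Γ', (g.1 : Matrix n n ℂ) * W = W * (φ g : Matrix (Fin e.rank) (Fin e.rank) ℂ) := by
    intro g
    rw [hφ1]
    calc (g.1 : Matrix n n ℂ) * W = (g.1 : Matrix n n ℂ) * (e * W) := by rw [heW]
      _ = e * (g.1 : Matrix n n ℂ) * W := by rw [← Matrix.mul_assoc, hc g.1 g.2]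
      _ = W * V * (g.1 : Matrix n n ℂ) * W := by rw [hWV]
      _ = W * (V * (g.1 : Matrix n n ℂ) * W) := by simp only [Matrix.mul_assoc]
  have hVirr : VIrr φ.range := by
    intro Γ'' hΓ'' hidx W0 hW0
    obtain ⟨K, hK⟩ : ∃ K, K = Γ''.comap φ := ⟨_, rfl⟩
    have hK1 : K.index ≠ 0 := by
      rw [hK, Subgroup.index_comap]
      exact hidx
    obtain ⟨Γ3, hΓ3⟩ : ∃ Γ3, Γ3 = K.map Γ'.subtype := ⟨_, rfl⟩
    have h3 : Γ3 ≤ Γ' := by
      rw [hΓ3]
      exact Subgroup.map_subtype_le K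
    have hFI : FI Γ3 Γ := by
      refine ⟨h3.trans hΓ'.1, ?_⟩
      rw [← Subgroup.relIndex_mul_relIndex Γ3 Γ' Γ h3 hΓ'.1]
      refine mul_ne_zero ?_ hΓ'.2
      rw [Subgroup.relIndex, Subgroup.subgroupOf, hΓ3, Subgroup.comap_map_eq_self_of_injective]
      · exact hK1
      · exact Subtype.val_injective
    have hstab : ∀ g ∈ Γ3, ∀ w ∈ W0.map (Matrix.mulVecLin W), (g : Matrix n n ℂ) *ᵥ w ∈
        W0.map (Matrix.mulVecLin W) := by
      intro g hg w hw
      rw [hΓ3, Subgroup.mem_map] at hg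
      obtain ⟨g', hg', rfl⟩ := hg
      rw [Submodule.mem_map] at hw
      obtain ⟨w', hw', rfl⟩ := hw
      rw [Submodule.mem_map]
      rw [hK, Subgroup.mem_comap] at hg'
      refine ⟨(φ g' : Matrix (Fin e.rank) (Fin e.rank) ℂ) *ᵥ w', hW0 _ hg' _ hw', ?_⟩
      rw [Matrix.mulVecLin_apply, Matrix.mulVecLin_apply, Matrix.mulVec_mulVec, Matrix.mulVec_mulVec, ← hφW]
      rfl
    rcases G.block_irr C he hFI (fun g hg => hcm g (h3 hg)) (W0.map (Matrix.mulVecLin W)) hstab (by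
      intro w hw
      rw [Submodule.mem_map] at hw
      obtain ⟨w', -, rfl⟩ := hw
      rw [Matrix.mulVecLin_apply, Matrix.mulVec_mulVec, heW]) with h4 | h4
    · left
      rw [eq_bot_iff]
      intro w hw
      have h5 : W *ᵥ w ∈ W0.map (Matrix.mulVecLin W) := ⟨w, hw, rfl⟩
      rw [h4, Submodule.mem_bot] at h5
      have h6 : V *ᵥ (W *ᵥ w) = w := by rw [Matrix.mulVec_mulVec, hVW, Matrix.one_mulVec]
      rw [h5, Matrix.mulVec_zero] at h6
      rw [Submodule.mem_bot]
      exact h6.symm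
    · right
      rw [eq_top_iff]
      intro w _
      have h5 := h4 (W *ᵥ w) (by rw [Matrix.mulVec_mulVec, heW])
      rw [Submodule.mem_map] at h5
      obtain ⟨w', hw', h6⟩ := h5
      rw [Matrix.mulVecLin_apply] at h6
      have h7 := congrArg (V *ᵥ ·) h6
      simp only [Matrix.mulVec_mulVec, hVW, Matrix.one_mulVec] at h7
      rw [← h7]
      exact hw'
  have hconj : ∀ g ∈ φ.range, ∀ y ∈ Le, (g : Matrix (Fin e.rank) (Fin e.rank) ℂ) * y *
      ((g⁻¹ : GL (Fin e.rank) ℂ) : Matrix (Fin e.rank) (Fin e.rank) ℂ) ∈ Le := by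
    rintro _ ⟨g, rfl⟩ y hy
    rw [memLe] at hy ⊢
    obtain ⟨x, hx', rfl⟩ := hy
    refine ⟨(g.1 : Matrix n n ℂ) * x * ((g.1⁻¹ : GL n ℂ) : Matrix n n ℂ), LG_conj (hΓ'.1 g.2) hx', ?_⟩
    rw [← map_inv, hφ1, hφ1, hcomp _ _ (hc g.1 g.2), hcomp _ _ ?_]
    · rfl
    · rw [Matrix.mul_assoc, LG_EC C hx' he.mem, ← Matrix.mul_assoc, hc g.1 g.2, Matrix.mul_assoc]
  have hgcd' : ∀ c : ℤ, ∀ d : ℕ, (∀ μ ∈ S'.image (fun p : ℤ => ((p - c : ℤ) : ℝ)), d ∣ (sp57 A S' c μ).rank) →
      d = 1 := by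
    intro c d hd
    refine hgcd d fun p => ?_
    by_cases hp : p ∈ S'
    · have h1 := hd _ (Finset.mem_image_of_mem _ hp)
      rwa [sp57_eq hAsupp, hArank] at h1
    · rw [hR.supp p hp, Matrix.mul_zero, Matrix.rank_zero]
      exact dvd_zero d
  have hirr0 : ∀ W0 : Submodule ℂ (Fin e.rank → ℂ), (∀ y ∈ Le, ∀ w ∈ W0, y *ᵥ w ∈ W0) → W0 = ⊥ ∨ W0 = ⊤ := by
    intro W0 hW0
    refine clifford (Γ := φ.range) Le hconj hVirr (h := ∑ p ∈ S', ((p - 0 : ℤ) : ℂ) • A p) ?_
      (sp57_sd hAmul hAsum hAsupp 0) (hgcd' 0) W0 hW0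
    rw [memLe]
    refine ⟨_, hR.h_mem, ?_⟩
    rw [Matrix.mul_sum, Matrix.sum_mul]
    refine Finset.sum_congr rfl fun p _ => ?_
    rw [hA, Matrix.mul_smul, Matrix.smul_mul, sub_zero]
  -- the trace zero part
  obtain ⟨L1, hL1⟩ : ∃ L1 : Submodule ℂ (Matrix (Fin e.rank) (Fin e.rank) ℂ), ∀ y, y ∈ L1 ↔
      (yᵀ + y = 0 ∧ ∃ c : ℂ, y + c • 1 ∈ Le) := by
    refine ⟨{ carrier := {y | yᵀ + y = 0 ∧ ∃ c : ℂ, y + c • 1 ∈ Le}, add_mem' := ?_, zero_mem' := ?_,
              smul_mem' := ?_ }, fun y => Iff.rfl⟩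
    · rintro y z ⟨hy, c, hc'⟩ ⟨hz, d, hd⟩
      refine ⟨?_, c + d, ?_⟩
      · rw [transpose_add]
        calc yᵀ + zᵀ + (y + z) = (yᵀ + y) + (zᵀ + z) := by abel
          _ = 0 := by rw [hy, hz, add_zero]
      · have h1 := Le.add_mem hc' hd
        have h2 : y + c • (1 : Matrix (Fin e.rank) (Fin e.rank) ℂ) + (z + d • 1) = y + z + (c + d) • 1 := by
          rw [add_smul]
          abel
        rwa [h2] at h1
    · refine ⟨by rw [transpose_zero, add_zero], 0, ?_⟩
      rw [zero_smul, add_zero]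
      exact Le.zero_mem
    · rintro a y ⟨hy, c, hc'⟩
      refine ⟨?_, a * c, ?_⟩
      · rw [transpose_smul, ← smul_add, hy, smul_zero]
      · have h1 := Le.smul_mem a hc'
        rwa [smul_add, smul_smul] at h1
  have hLe1 : ∀ y ∈ Le, ∃ c : ℂ, y - c • 1 ∈ L1 := by
    intro y hy
    obtain ⟨x, hx', rfl⟩ := (memLe y).mp hy
    obtain ⟨c, -, hc'⟩ := G.LG_sim H hx'
    refine ⟨c / 2, ?_⟩
    rw [hL1]
    refine ⟨?_, c / 2, ?_⟩
    · have h1 := hsim x c hc'
      rw [transpose_sub, transpose_smul, transpose_one]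
      calc (V * x * W)ᵀ - (c / 2) • (1 : Matrix (Fin e.rank) (Fin e.rank) ℂ) + (V * x * W - (c / 2) • 1)
          = ((V * x * W)ᵀ + V * x * W) - c • 1 := by module
        _ = 0 := by rw [h1, sub_self]
    · rw [sub_add_cancel]
      exact hy
  have hbr0 : ∀ y ∈ Le, ∀ z ∈ Le, y * z - z * y ∈ Le := by
    intro y hy z hz
    rw [memLe] at hy hz ⊢
    obtain ⟨x, hx', rfl⟩ := hy
    obtain ⟨x', hx'', rfl⟩ := hz
    refine ⟨x * x' - x' * x, LG_br hx' hx'', ?_⟩
    rw [hcomp _ _ (LG_EC C hx' he.mem), hcomp _ _ (LG_EC C hx'' he.mem), Matrix.mul_sub, Matrix.sub_mul]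
  have hbr1 : ∀ y ∈ L1, ∀ z ∈ L1, y * z - z * y ∈ L1 := by
    intro y hy z hz
    rw [hL1] at hy hz ⊢
    obtain ⟨hy1, c, hy2⟩ := hy
    obtain ⟨hz1, d, hz2⟩ := hz
    refine ⟨?_, 0, ?_⟩
    · have h1 : yᵀ = -y := eq_neg_of_add_eq_zero_left hy1
      have h2 : zᵀ = -z := eq_neg_of_add_eq_zero_left hz1
      rw [transpose_sub, transpose_mul, transpose_mul, h1, h2, neg_mul_neg, neg_mul_neg]
      abel
    · have h1 := hbr0 _ hy2 _ hz2
      have h2 : (y + c • (1 : Matrix (Fin e.rank) (Fin e.rank) ℂ)) * (z + d • 1) - (z + d • 1) * (y + c • 1) =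
          y * z - z * y + (0 : ℂ) • 1 := by
        simp only [add_mul, mul_add, smul_mul_assoc, mul_smul_comm, one_mul, mul_one]
        module
      rwa [h2] at h1
  have hirr1 : ∀ W0 : Submodule ℂ (Fin e.rank → ℂ), (∀ y ∈ L1, ∀ w ∈ W0, y *ᵥ w ∈ W0) → W0 = ⊥ ∨ W0 = ⊤ := by
    intro W0 hW0
    refine hirr0 W0 fun y hy w hw => ?_
    obtain ⟨c, hc'⟩ := hLe1 y hy
    have h1 := hW0 _ hc' w hw
    have h2 : y *ᵥ w = (y - c • 1) *ᵥ w + c • w := by
      rw [Matrix.sub_mulVec, Matrix.smul_mulVec, Matrix.one_mulVec, sub_add_cancel]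
    rw [h2]
    exact W0.add_mem h1 (W0.smul_mem c hw)
  -- the element `h`
  have hh1 : ∑ p ∈ S', ((p - m : ℤ) : ℂ) • A p ∈ L1 := by
    rw [hL1]
    constructor
    · have h1 : (∑ p ∈ S', ((p - m : ℤ) : ℂ) • R p)ᵀ * toC Q + toC Q * ∑ p ∈ S', ((p - m : ℤ) : ℂ) • R p =
          (0 : ℂ) • toC Q := by
        obtain ⟨Z, hZ⟩ : ∃ Z, Z = (∑ p ∈ S', ((p - m : ℤ) : ℂ) • R p)ᵀ * toC Q +
          toC Q * ∑ p ∈ S', ((p - m : ℤ) : ℂ) • R p := ⟨_, rfl⟩
        rw [← hZ, zero_smul]
        have h2 : ∀ q, (∑ p ∈ S', ((p - m : ℤ) : ℂ) • R p) * R q = ((q - m : ℤ) : ℂ) • R q := by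
          intro q
          rw [Matrix.sum_mul]
          by_cases hq : q ∈ S'
          · rw [Finset.sum_eq_single_of_mem q hq]
            · rw [Matrix.smul_mul, hR.mul, if_pos rfl]
            · intro p _ hpq
              rw [Matrix.smul_mul, hR.mul, if_neg hpq, smul_zero]
          · rw [hR.supp q hq, smul_zero]
            exact Finset.sum_eq_zero fun p _ => Matrix.mul_zero _
        have h3 : ∀ p q, (R p)ᵀ * Z * R q = 0 := by
          intro p q
          have h4 : (R p)ᵀ * Z * R q = ((p - m : ℤ) : ℂ) • ((R p)ᵀ * toC Q * R q) +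
              ((q - m : ℤ) : ℂ) • ((R p)ᵀ * toC Q * R q) := by
            rw [hZ, Matrix.mul_add, Matrix.add_mul]
            congr 1
            · rw [← Matrix.mul_assoc, ← transpose_mul, h2, transpose_smul, Matrix.smul_mul, Matrix.smul_mul]
            · rw [Matrix.mul_assoc, Matrix.mul_assoc, h2, Matrix.mul_smul, Matrix.mul_smul, Matrix.mul_assoc]
          rw [h4, ← add_smul]
          by_cases hpq : p + q = 2 * m
          · have h5 : (((p - m : ℤ) : ℂ) + ((q - m : ℤ) : ℂ)) = 0 := by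
              rw [← Int.cast_add, show p - m + (q - m) = 0 by omega, Int.cast_zero]
            rw [h5, zero_smul]
          · rw [hR.orth p q hpq, smul_zero]
        calc Z = (∑ p ∈ S', R p)ᵀ * Z * ∑ q ∈ S', R q := by
              rw [hR.sum, transpose_one, Matrix.one_mul, Matrix.mul_one]
          _ = ∑ q ∈ S', ∑ p ∈ S', (R p)ᵀ * Z * R q := by
              rw [transpose_sum, Matrix.mul_sum]
              refine Finset.sum_congr rfl fun q _ => ?_
              rw [Matrix.sum_mul, Matrix.sum_mul]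
          _ = 0 := Finset.sum_eq_zero fun q _ => Finset.sum_eq_zero fun p _ => h3 p q
      have h2 := hsim _ 0 h1
      rw [zero_smul] at h2
      have h3 : V * (∑ p ∈ S', ((p - m : ℤ) : ℂ) • R p) * W = ∑ p ∈ S', ((p - m : ℤ) : ℂ) • A p := by
        rw [Matrix.mul_sum, Matrix.sum_mul]
        refine Finset.sum_congr rfl fun p _ => ?_
        rw [hA, Matrix.mul_smul, Matrix.smul_mul]
      rwa [h3] at h2
    · refine ⟨(m : ℂ), ?_⟩
      rw [memLe]
      refine ⟨_, hR.h_mem, ?_⟩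
      rw [← hAsum, Finset.smul_sum, ← Finset.sum_add_distrib, Matrix.mul_sum, Matrix.sum_mul]
      refine Finset.sum_congr rfl fun p _ => ?_
      rw [hA, Matrix.mul_smul, Matrix.smul_mul, ← add_smul]
      congr 1
      push_cast
      ring
  have hinj : ∀ p ∈ S', ∀ q ∈ S', ((p - m : ℤ) : ℝ) = ((q - m : ℤ) : ℝ) → p = q := by
    intro p _ q _ h
    have : p - m = q - m := by exact_mod_cast h
    omega
  have hsumeq : ∑ μ ∈ (S'.image (fun p : ℤ => ((p - m : ℤ) : ℝ))).filter (fun μ => 0 < μ),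
      (sp57 A S' m μ).rank = ∑ p ∈ S'.filter (fun p => m < p), (e * R p).rank := by
    rw [Finset.filter_image, Finset.sum_image]
    · have h1 : S'.filter (fun p : ℤ => 0 < ((p - m : ℤ) : ℝ)) = S'.filter (fun p => m < p) := by
        apply Finset.filter_congr
        intro p _
        rw [Int.cast_pos]
        omega
      rw [h1]
      refine Finset.sum_congr rfl fun p _ => ?_
      rw [sp57_eq hAsupp, hArank]
    · intro p hp q hq h
      exact hinj p (Finset.mem_filter.mp hp).1 q (Finset.mem_filter.mp hq).1 h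
  have h0eq : (sp57 A S' m 0).rank = (e * R m).rank := by
    have h1 := sp57_eq hAsupp m m
    rw [sub_self, Int.cast_zero] at h1
    rw [h1, hArank]
  have hfull : ∀ y : Matrix (Fin e.rank) (Fin e.rank) ℂ, yᵀ = -y → y ∈ L1 := by
    intro y hy
    refine full_of_irr4 (1 : Matrix (Fin e.rank) (Fin e.rank) ℂ) 1 transpose_one (Matrix.mul_one _)
      (Matrix.mul_one _) L1 hbr1 hirr1 ?_ hh1 (sp57_sd hAmul hAsum hAsupp m) ?_ ?_ (hgcd' m) ?_ ?_
    · intro z hz
      rw [Matrix.mul_one, Matrix.one_mul]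
      exact ((hL1 z).mp hz).1
    · rw [hsumeq]
      exact hdom.two
    · rw [hsumeq, h0eq]
      exact hdom.sq
    · intro hne htr
      exact exists_herm L1 hbr1 hirr1 htr hh1 (sp57_sd hAmul hAsum hAsupp m)
    · rw [Matrix.mul_one, Matrix.one_mul, hy, neg_add_cancel]
  -- brackets
  have hT : V * X * W ∈ cpL W V (LGb Γ) := by
    refine brk57 (by rw [Fintype.card_fin]; omega) _ (fun y z hy hz => ?_) hx
    obtain ⟨-, c, hc'⟩ := (hL1 y).mp (hfull y hy)
    obtain ⟨-, d, hd'⟩ := (hL1 z).mp (hfull z hz)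
    obtain ⟨a, ha, ha'⟩ := (memLe _).mp hc'
    obtain ⟨b, hb, hb'⟩ := (memLe _).mp hd'
    refine ⟨a * b - b * a, Submodule.subset_span ⟨a, ha, b, hb, rfl⟩, ?_⟩
    have h2 : (y + c • (1 : Matrix (Fin e.rank) (Fin e.rank) ℂ)) * (z + d • 1) - (z + d • 1) * (y + c • 1) =
        y * z - z * y := by
      simp only [add_mul, mul_add, smul_mul_assoc, mul_smul_comm, one_mul, mul_one]
      module
    rw [← h2, ha', hb', hcomp _ _ (LG_EC C ha he.mem), hcomp _ _ (LG_EC C hb he.mem), Matrix.mul_sub,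
      Matrix.sub_mul]
  obtain ⟨Y, hY, hYx⟩ := hT
  refine ⟨Y, hY, ?_⟩
  have hYe : Y * e = e * Y := by
    clear hYx
    induction hY using Submodule.span_induction with
    | mem y hy =>
      obtain ⟨a, ha, b, hb, rfl⟩ := hy
      have h1 := LG_EC C ha he.mem
      have h2 := LG_EC C hb he.mem
      rw [Matrix.sub_mul, Matrix.mul_sub, Matrix.mul_assoc, h2, ← Matrix.mul_assoc, h1, Matrix.mul_assoc,
        Matrix.mul_assoc b a e, h1, ← Matrix.mul_assoc b e a, h2, Matrix.mul_assoc]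
    | zero => rw [Matrix.zero_mul, Matrix.mul_zero]
    | add x y _ _ hx hy => rw [Matrix.add_mul, Matrix.mul_add, hx, hy]
    | smul c x _ hx => rw [Matrix.smul_mul, Matrix.mul_smul, hx]
  calc Y * e = Y * (e * e) := by rw [he.idem]
    _ = e * Y * e := by rw [← Matrix.mul_assoc, hYe]
    _ = (W * V) * Y * (W * V) := by rw [hWV]
    _ = W * (V * Y * W) * V := by simp only [Matrix.mul_assoc]
    _ = X := by rw [← hYx, hXx]

end MH
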